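import Pool.Agent.MP_a2da35_lc.Det.Alg
import Pool.Agent.MP_a2da35_lc.Det.Defs

-- part MP_a2da35_lc.Det.Correct
section

/-!
Every answer of the algorithm is correct.
-/

namespace Pool.Agent.MP_a2da35_lc

open Finset Pool.Agent.Lib.Cx

section graph

variable {NL NR : ℕ} {R : ℕ → ℕ → Prop}

def bgraph (NL NR : ℕ) (R : ℕ → ℕ → Prop) : SimpleGraph (Fin (NL + NR)) where
  Adj u v := bAdj NL R u v
  symm := ⟨fun _ _ h => Or.symm h⟩
  loopless := ⟨fun u h => by rcases h with h | h <;> omega⟩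

theorem adjRows_bgraph (X : DD) (γ : ℕ) : adjRows (bgraph X.NL X.NR (X.AdjLR γ)) = X.mat γ := by
  rw [adjRows, DD.mat]
  refine List.ext_getElem (by simp) fun i h1 h2 => ?_
  rw [List.getElem_ofFn, List.getElem_map, List.getElem_range]
  refine List.ext_getElem (by simp) fun j h3 h4 => ?_
  rw [List.getElem_ofFn, List.getElem_map, List.getElem_range]
  rfl

theorem bgraph_bipartite : (bgraph NL NR R).IsBipartite := by
  refine ⟨SimpleGraph.Coloring.mk (fun u => if (u : ℕ) < NL then 0 else 1) ?_⟩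
  rintro u v (h | h)
  · rw [if_pos h.1, if_neg (not_lt.2 h.2.1)]; decide
  · rw [if_pos h.1, if_neg (not_lt.2 h.2.1)]; decide

theorem HasB.contained {a : ℕ} (h : HasB NL NR R a) :
    (completeBipartiteGraph (Fin a) (Fin a)).IsContained (bgraph NL NR R) := by
  classical
  obtain ⟨A, B, h1, h2, h3, h4, h5⟩ := h
  rw [SimpleGraph.completeBipartiteGraph_isContained_iff]
  refine ⟨A.attachFin fun u hu => (h3 u hu).trans_le (Nat.le_add_right _ _),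
    (B.image fun v => NL + v).attachFin fun u hu => ?_, by simpa using h1, ?_, ?_⟩
  · obtain ⟨v, hv, rfl⟩ := mem_image.1 hu
    exact Nat.add_lt_add_left (h4 v hv) _
  · rw [card_attachFin, card_image_of_injective _ (add_right_injective _), h2, Fintype.card_fin]
  · intro u hu v hv
    rw [mem_coe, mem_attachFin] at hu hv
    obtain ⟨v', hv', e⟩ := mem_image.1 hv
    refine Or.inl ⟨h3 u hu, by omega, ?_⟩
    rw [← e, Nat.add_sub_cancel_left]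
    exact h5 u hu v' hv'

theorem hasB_of_sides {a : ℕ} (A B : Finset ℕ) (h1 : a ≤ A.card) (h2 : a ≤ B.card)
    (h3 : ∀ u ∈ A, u < NL) (h4 : ∀ v ∈ B, v < NL + NR)
    (h5 : ∀ u ∈ A, ∀ v ∈ B, bAdj NL R u v) (ha : 0 < a) : HasB NL NR R a := by
  obtain ⟨A', a1, a2⟩ := Finset.exists_subset_card_eq h1
  obtain ⟨B', b1, b2⟩ := Finset.exists_subset_card_eq h2
  obtain ⟨u0, hu0⟩ := card_pos.1 (ha.trans_le h1)
  have key : ∀ u ∈ A, ∀ v ∈ B, NL ≤ v ∧ R u (v - NL) := by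
    intro u hu v hv
    rcases h5 u hu v hv with h | h
    · exact h.2
    · have := h3 u hu
      omega
  refine ⟨A', B'.image (· - NL), a2, ?_, fun u hu => h3 u (a1 hu), fun v hv => ?_,
    fun u hu v hv => ?_⟩
  · rw [card_image_of_injOn, b2]
    intro v hv v' hv' e
    have := (key u0 hu0 v (b1 hv)).1
    have := (key u0 hu0 v' (b1 hv')).1
    simp only at e
    omega
  · obtain ⟨v', hv', rfl⟩ := mem_image.1 hv
    have := (key u0 hu0 v' (b1 hv')).1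
    have := h4 v' (b1 hv')
    omega
  · obtain ⟨v', hv', rfl⟩ := mem_image.1 hv
    exact (key u (a1 hu) v' (b1 hv')).2

theorem hasB_of_ver {a : ℕ} (ha : 0 < a) {y : List Bool}
    (h : Ver (adjRows (bgraph NL NR R)) a y) : HasB NL NR R a := by
  obtain ⟨h1, h2, h3⟩ := h
  rw [length_adjRows] at h1 h2 h3
  let A := (range (NL + NR)).filter fun u => y.getD u false = true
  let B := (range (NL + NR)).filter fun v => y.getD (NL + NR + v) false = true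
  have a1 : a ≤ A.card := by
    rw [← length_filter_range]; simpa using h1
  have b1 : a ≤ B.card := by
    rw [← length_filter_range]; simpa using h2
  have key : ∀ u ∈ A, ∀ v ∈ B, bAdj NL R u v := by
    intro u hu v hv
    obtain ⟨u1, u2⟩ := mem_filter.1 hu
    obtain ⟨v1, v2⟩ := mem_filter.1 hv
    rw [mem_range] at u1 v1
    exact (ent_adjRows' _ u1 v1).1 (h3 u u1 v v1 u2 v2)
  obtain ⟨u0, hu0⟩ := card_pos.1 (ha.trans_le a1)
  obtain ⟨v0, hv0⟩ := card_pos.1 (ha.trans_le b1)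
  by_cases hv : v0 < NL
  · refine hasB_of_sides B A b1 a1 (fun v hv' => ?_)
      (fun u hu => mem_range.1 (mem_filter.1 hu).1) (fun v hv' u hu => (key u hu v hv').symm) ha
    rcases key u0 hu0 v0 hv0 with h | h <;> rcases key u0 hu0 v hv' with h' | h' <;> omega
  · refine hasB_of_sides A B a1 b1 (fun u hu => ?_)
      (fun u hu => mem_range.1 (mem_filter.1 hu).1) key ha
    rcases key u hu v0 hv0 with h | h <;> omega

end graph

theorem primeAbove_spec {b T : ℕ} (h : 2 ^ (b + 1) ≤ T) :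
    (primeAbove b T).Prime ∧ 2 ^ b < primeAbove b T ∧ primeAbove b T ≤ 2 ^ (b + 1) := by
  classical
  obtain ⟨p, hp, h1, h2⟩ := Nat.exists_prime_lt_and_le_two_mul (2 ^ b) (by positivity)
  rw [← pow_succ'] at h2
  unfold primeAbove
  cases e : (List.range (T + 1)).find? fun x => decide (IsP b T x) with
  | none =>
    have := List.find?_eq_none.1 e p (List.mem_range.2 (by omega))
    exact absurd (decide_eq_true (show IsP b T p from ⟨h1, h2, fun d _ d2 d3 d4 => by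
      rcases (Nat.dvd_prime hp).1 d4 with h | h <;> omega⟩)) this
  | some x =>
    obtain ⟨x1, x2, x3⟩ : IsP b T x := by simpa using List.find?_some e
    have : 1 ≤ 2 ^ b := Nat.one_le_two_pow
    exact ⟨Nat.prime_def_lt'.2 ⟨by change 2 ≤ x; omega,
      fun d d1 d2 => x3 d (by change d < x at d2; omega) d1 d2⟩, x1, x2⟩

structure Cst.Ok (Z : Cst) : Prop where
  c_pos : 0 < Z.c
  E_pos : 0 < Z.E
  Γ_eq : Z.Γ = 2097152000 * Z.c * Z.E
  H_eq : Z.H = 200000 * Z.Γ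
  t'_eq : Z.t' = 1179649 * Z.H ^ 4 * (Z.Γ + 1)
  t0_eq : Z.t0 + 1 = Z.c * Z.t'

theorem Cst.Ok.Γ_pos {Z : Cst} (h : Z.Ok) : 0 < Z.Γ := by
  rw [h.Γ_eq]; have := h.c_pos; have := h.E_pos; positivity

theorem Cst.Ok.H_pos {Z : Cst} (h : Z.Ok) : 0 < Z.H := by
  rw [h.H_eq]; have := h.Γ_pos; positivity

theorem Cst.Ok.t'_ge {Z : Cst} (h : Z.Ok) : 32768 * (Z.Γ + 1) ≤ Z.t' := by
  rw [h.t'_eq]
  exact Nat.mul_le_mul_right _ (by have := Nat.pow_pos (n := 4) h.H_pos; omega)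

theorem pow_le_pow_div {p x g : ℕ} (hp : 0 < p) (hg : 0 < g) : p ^ x ≤ (p ^ (x / g + 1)) ^ g := by
  rw [← pow_mul, mul_comm]
  exact Nat.pow_le_pow_right hp (Nat.lt_mul_div_succ x hg).le

theorem Pm.good {Z : Cst} (hZ : Z.Ok) (P : Pm) {φ : List Clause} (hm : P.m = φ.length)
    (hφ : OnVars P.n φ) (h1 : P.Ar Z) (h2 : P.Fits Z) :
    (P.dd Z φ).Good (P.p Z) (P.a Z) P.g (P.cap Z) Z.c Z.E Z.Γ Z.H ∧
      ((P.dat Z φ).IsFar Z.E → (P.dd Z φ).F.ViolB (P.dd Z φ).B Z.E (P.dd Z φ).o) := by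
  obtain ⟨a1, a2, a3, a4, a5, a6, a7, a8, a9, a10, a11, a12, a13⟩ := h1
  obtain ⟨p1, p2, p3⟩ : (P.p Z).Prime ∧ 2 ^ P.b Z < P.p Z ∧ P.p Z ≤ 2 ^ (P.b Z + 1) :=
    primeAbove_spec h2.1
  obtain ⟨q1, q2, -⟩ : (P.q Z).Prime ∧ 2 ^ P.A Z < P.q Z ∧ _ := primeAbove_spec h2.2.1
  have hΓ := hZ.Γ_pos
  have hH := hZ.H_pos
  have ht := hZ.t'_ge
  have hν : 0 < P.ν Z := Nat.mul_pos a2 (Nat.pow_pos a2)
  have hh : 0 < P.h Z := Nat.mul_pos (by omega) a2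
  have hu : 0 < P.u := by unfold Pm.u; omega
  have hk : P.k Z = Z.c * P.h Z := by rw [Pm.k, Pm.h, hZ.t0_eq, mul_assoc]
  have hW : P.m + P.n < 2 ^ P.W := lt_two_pow_size _
  have hB : 0 < P.B Z := Nat.succ_pos _
  have wf : (P.dat Z φ).Wf := by
    refine ⟨a3, hν.trans_le a5, a4, fun j hj r hr => ?_⟩
    obtain ⟨b1, b2, b3⟩ := hφ _ (getD_mem (j := j) (hj.trans_eq hm)
      ((0, false), (0, false), (0, false)))
    interval_cases r
    exacts [b1, b2, b3]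
  have geo : (P.dat Z φ).G.Geo := xg_geo _ _ _ _ _ a2
  refine ⟨⟨wf, geo, xg_code (R := P.R Z) p1 p2 a2 hh rfl le_rfl (Nat.le_add_left _ _) a8
      (Nat.pow_pos a1) (Nat.le_add_right _ _), hB,
    Dat.sample_load wf geo ((Nat.le_add_right _ _).trans hW.le)
      ((Nat.le_add_left _ _).trans_lt hW) a5 hB,
    (Nat.lt_mul_div_succ _ (Nat.pow_pos hh)).le, a7,
    colr_ok p1 (by unfold Pm.g; positivity) (pow_le_pow_div p1.pos (by unfold Pm.g; positivity)),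
    q1, colr_ok q1 (by norm_num) ?_, ?_,
    colr_ok q1 (by positivity) (pow_le_pow_div q1.pos (by positivity)), ?_, ?_, q2, hH, a9, a10,
    le_trans ?_ a11, a12, ?_, ?_, rfl, a13, rfl, hk, hZ.c_pos, hZ.E_pos, hZ.Γ_eq, ?_⟩,
    fun hf => Dat.sample_viol wf geo ((Nat.le_add_right _ _).trans hW.le)
      ((Nat.le_add_left _ _).trans_lt hW) a5 hB a1 hZ.E_pos hf a6⟩
  · change P.q Z ^ (4 * P.u + P.u + 1) ≤ (P.q Z ^ (2 * P.u)) ^ 4
    rw [← pow_mul]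
    exact Nat.pow_le_pow_right q1.pos (by omega)
  · change P.q Z ^ (2 * P.u) * P.p Z ^ P.J Z ^ (Z.t0 + 1) ≤ P.q Z ^ (4 * P.u)
    rw [show 4 * P.u = 2 * P.u + 2 * P.u by ring, pow_add (P.q Z)]
    refine Nat.mul_le_mul_left _ ((Nat.pow_le_pow_left p3 _).trans ?_)
    refine le_trans ?_ ((Nat.pow_le_pow_left q2.le P.u).trans
      (Nat.pow_le_pow_right q1.pos (by omega)))
    rw [← pow_mul, mul_comm]
    exact pow_le_pow_div two_pos hu
  · change P.ν Z < P.ν Z + _ + 1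
    omega
  · change P.k Z * (P.q Z ^ P.a3 Z) ^ P.L Z ≤ P.q Z ^ (P.ν Z + P.L Z * P.a3 Z + 1 - P.ν Z)
    rw [add_assoc, Nat.add_sub_cancel_left, pow_succ', ← pow_mul, mul_comm (P.a3 Z)]
    exact Nat.mul_le_mul_right _ (a11.trans (Nat.lt_two_pow_self.le.trans q2.le))
  · change P.h Z ≤ _
    rw [hk]
    exact Nat.le_mul_of_pos_left _ hZ.c_pos
  · change 4200 * Z.H ^ 3 * P.D Z ≤ P.L Z * P.h Z
    have b1 : P.D Z ≤ 2 * P.ν Z :=
      Nat.le_of_mul_le_mul_left (c := 4 * Z.Γ) (a13.trans (by nlinarith)) (by omega)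
    have b2 := Nat.lt_mul_div_succ (8400 * Z.H ^ 3 * P.ν Z) hh
    rw [mul_comm (P.L Z), Pm.L]
    nlinarith [Nat.mul_le_mul_left (4200 * Z.H ^ 3) b1]
  · change 18 * Z.H ^ 4 * (8 * (Z.Γ + 1) * (8192 * P.k1)) < Z.t' * P.k1
    rw [hZ.t'_eq]
    have : 0 < Z.H ^ 4 * (Z.Γ + 1) * P.k1 := by positivity
    nlinarith
  · change _ ≤ Z.t0 + 1
    rw [hZ.t0_eq, mul_comm 32768, mul_assoc]
    exact Nat.mul_le_mul_left _ (by omega)

/-- The two properties of the clocked simulation. -/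
def IsSim (M : Turing.TM2ComputableAux Bool Bool) (sim : Sim) : Prop :=
  (∀ x r y, Runs M x y r.length → sim (x, r) = some y) ∧
    ∀ x r y y' T, Runs M x y T → sim (x, r) = some y' → y' = y

section verdict

variable {M : Turing.TM2ComputableAux Bool Bool} {c' : ℝ} {τ : ℕ → ℕ → ℝ} {sim : Sim} {X : DD}
  {p a g cap c E Γ H : ℕ}

theorem verdict_isSome (hM : DetApproximates M c' τ) (hs : IsSim M sim)
    (K : X.Good p a g cap c E Γ H) {pad : List Unit} (h : τ (X.NL + X.NR) X.F.G.k ≤ pad.length) :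
    (X.verdict sim pad).isSome = true := by
  unfold DD.verdict
  rw [if_pos]
  · rfl
  intro γ _
  obtain ⟨y, y1, -⟩ := hM _ (bgraph X.NL X.NR (X.AdjLR γ)) _
      (Nat.add_pos_right _ (Nat.pow_pos K.q_prime.pos)) K.k_pos bgraph_bipartite
  rw [adjRows_bgraph] at y1
  rw [DD.run, hs.1 (enc _) _ y (y1.mono h)]
  rfl

theorem verdict_ok (hM : DetApproximates M c' τ) (hs : IsSim M sim) (hc : 0 < c') (hc' : c' ≤ c)
    (K : X.Good p a g cap c E Γ H) {pad : List Unit} {b : Bool}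
    (h : X.verdict sim pad = some b) :
    ((∃ x : ℕ → Bool, ∀ j < X.F.m, ∃ r < 3, x (X.F.var j r) = X.F.sgn j r) → b = true) ∧
      (X.F.ViolB X.B E X.o → b = false) := by
  classical
  unfold DD.verdict at h
  split_ifs at h with h1
  obtain rfl := Option.some.inj h
  refine ⟨fun ⟨x, hx⟩ => ?_, fun hV => decide_eq_false ?_⟩
  · obtain ⟨γ, g1, g2⟩ := DD.yes K x hx
    refine decide_eq_true ⟨γ, g1, ?_⟩
    obtain ⟨y, y1, y2⟩ := hM _ (bgraph X.NL X.NR (X.AdjLR γ)) _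
      (Nat.add_pos_right _ (Nat.pow_pos K.q_prime.pos)) K.k_pos bgraph_bipartite
    obtain ⟨y', e⟩ := Option.isSome_iff_exists.1 (h1 γ g1)
    obtain ⟨y3, y4, y5⟩ := y2 g2.contained
    rw [adjRows_bgraph] at y1
    rw [e, hs.2 _ _ y y' _ y1 e, Option.getD_some, ← adjRows_bgraph]
    refine ver_of_marked _ y3 ?_ y5
    have e' : (X.h : ℝ) ≤ X.F.G.k / c' := by
      rw [le_div_iff₀ hc, K.k_eq]
      push_cast
      nlinarith [Nat.cast_nonneg (α := ℝ) X.h]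
    exact_mod_cast e'.trans y4
  · rintro ⟨γ, -, hγ⟩
    rw [← adjRows_bgraph] at hγ
    exact DD.no K hV γ (hasB_of_ver K.h_pos hγ)

theorem stage_ok {Z : Cst} (hZ : Z.Ok) (hM : DetApproximates M c' τ) (hs : IsSim M sim)
    (hc : 0 < c') (hc' : c' ≤ Z.c) {ε : ℝ} (hε : 0 < ε) (hE : 1 ≤ Z.E * ε) {n : ℕ}
    {φ : List Clause} (hφ : OnVars n φ) {pad : List Unit} (hp : 0 < pad.length) {b : Bool}
    (h : stage Z sim ((n, φ), pad) = some b) :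
    (Satisfiable φ → b = true) ∧ (Far ε φ → b = false) := by
  classical
  unfold stage at h
  split_ifs at h with h1 h2
  · obtain rfl := Option.some.inj h
    refine ⟨fun hs => decide_eq_true ?_, fun hf => decide_eq_false fun hb => hf.not_sat hε hb.sat⟩
    rcases h1 with rfl | h1
    · exact ⟨0, hp, by simp⟩
    · exact brute_of_sat hφ h1 hs
  · obtain ⟨z, -, hz⟩ := List.mem_filterMap.1 (List.mem_of_head? h)
    unfold cand at hz
    split_ifs at hz with h3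
    have e : (pm ((pad.take z.1, pad.take z.2, pad.take n), φ, pad)).n = n := by
      simpa [pm] using h2
    obtain ⟨K, hV⟩ := Pm.good hZ _ (φ := φ) rfl (e.symm ▸ hφ) h3.1 h3.2
    obtain ⟨v1, v2⟩ := verdict_ok hM hs hc hc' K hz
    exact ⟨fun hs => v1 (sat_datT default n 0 hs),
      fun hf => v2 (hV (isFar_datT hE default n 0 hf))⟩

end verdict

end Pool.Agent.MP_a2da35_lc

end

-- part MP_a2da35_lc.Det.Sizes
section

/-!
The conditions on the parameters hold for large formulas, and bounds for the budget.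
-/

namespace Pool.Agent.MP_a2da35_lc

open Finset Pool.Agent.Lib.Cx

namespace Pm

variable {Z : Cst} {P : Pm}

theorem t0_ge (hZ : Z.Ok) : 2 ≤ Z.t0 := by
  have h1 := hZ.t'_ge
  have h2 := hZ.t0_eq
  have h3 := Nat.le_mul_of_pos_left Z.t' hZ.c_pos
  omega

theorem n_le_kB (Z : Cst) (hk : 0 < P.k1) :
    1000 * Z.E * P.j ^ 2 * P.n ≤ P.k1 * P.B Z := (Nat.lt_mul_div_succ _ hk).le

theorem kB_le (P : Pm) : P.k1 * P.B Z ≤ 1000 * Z.E * P.j ^ 2 * P.n + P.k1 := by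
  rw [B, mul_add, mul_one]
  exact Nat.add_le_add_right (Nat.mul_div_le _ _) _

theorem le_b (hZ : Z.Ok) (hj : 0 < P.j) (hk : 0 < P.k1) {K : ℕ}
    (h : K * P.h Z ^ (Z.t0 + 1) * P.k1 ^ Z.t0 * P.k1 ≤ P.n) : K ≤ P.b Z := by
  have hh : 0 < P.h Z := Nat.mul_pos (by have := hZ.t'_ge; omega) hk
  have h1 : K * P.h Z ^ (Z.t0 + 1) * P.k1 ^ Z.t0 ≤ P.B Z := by
    refine Nat.le_of_mul_le_mul_right (h.trans ?_) hk
    rw [mul_comm]
    exact le_trans (Nat.le_mul_of_pos_left _ (by have := hZ.E_pos; positivity)) (n_le_kB Z hk)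
  have h2 : K * P.h Z ^ (Z.t0 + 1) ≤ 288 * P.B Z / P.k1 ^ Z.t0 :=
    (Nat.le_div_iff_mul_le (Nat.pow_pos hk)).2 (by omega)
  refine Nat.le_succ_of_le ((Nat.le_div_iff_mul_le (Nat.pow_pos hh)).2
    (le_trans ?_ (Nat.le_mul_of_pos_left _ (Nat.succ_pos _))))
  unfold cap
  omega

theorem u_le_h (hZ : Z.Ok) : P.u ≤ P.h Z :=
  Nat.mul_le_mul_right _ (by have := hZ.t'_ge; omega)

theorem b_le_A (hZ : Z.Ok) (hk : 0 < P.k1) : P.b Z ≤ P.A Z := by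
  have hu : 0 < P.u := by unfold u; omega
  refine Nat.le_succ_of_le ((Nat.le_div_iff_mul_le hu).2 ?_)
  rw [mul_comm]
  refine Nat.mul_le_mul ((u_le_h hZ).trans (le_trans ?_ (Nat.le_self_pow (Nat.succ_ne_zero _) _)))
    (Nat.le_succ _)
  exact Nat.le_mul_of_pos_left _ (Nat.succ_pos _)

theorem sq_le_ν (hZ : Z.Ok) (P : Pm) : P.k1 * P.k1 ≤ P.ν Z :=
  Nat.mul_le_mul_left _ (Nat.le_self_pow (by have := t0_ge hZ; omega) _)

theorem D_le (hZ : Z.Ok) (hk : 4 * Z.t' ≤ P.k1) :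
    4 * Z.Γ * P.D Z ≤ (4 * Z.Γ + 1) * P.ν Z := by
  have hΓ := hZ.Γ_pos
  have hH := hZ.H_pos
  have ht := hZ.t'_ge
  have hk0 : 0 < P.k1 := by omega
  have hh : Z.t' ≤ P.h Z := Nat.le_mul_of_pos_right _ hk0
  have h0 : 2 * Z.H ^ 4 ≤ Z.t' := by
    rw [hZ.t'_eq]
    exact le_trans (by omega) (Nat.le_mul_of_pos_right _ (Nat.succ_pos _))
  have h1 : P.h Z * P.L Z ≤ 8400 * Z.H ^ 3 * P.ν Z + P.h Z := by
    rw [L, mul_add, mul_one]
    exact Nat.add_le_add_right (Nat.mul_div_le _ _) _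
  have h2 : 2 * Z.H ^ 4 * P.a3 Z ≤ 5 * P.h Z := by
    rw [a3, mul_add, mul_one]
    have := Nat.mul_div_le (2 * P.h Z + P.h Z + 1) (2 * Z.H ^ 4)
    omega
  have h3 : 2 * Z.H ^ 4 * (P.L Z * P.a3 Z) ≤ 42000 * Z.H ^ 3 * P.ν Z + 5 * P.h Z := by
    calc _ = P.L Z * (2 * Z.H ^ 4 * P.a3 Z) := by ring
      _ ≤ P.L Z * (5 * P.h Z) := Nat.mul_le_mul_left _ h2
      _ = 5 * (P.h Z * P.L Z) := by ring
      _ ≤ 5 * (8400 * Z.H ^ 3 * P.ν Z + P.h Z) := Nat.mul_le_mul_left _ h1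
      _ = _ := by ring
  have h4 : 4 * P.h Z ≤ P.ν Z := by
    refine le_trans ?_ (sq_le_ν hZ P)
    rw [h, ← mul_assoc]
    exact Nat.mul_le_mul_right _ hk
  have h5 : 400000 * (Z.Γ * (P.L Z * P.a3 Z)) ≤ 42000 * P.ν Z + 5 * P.h Z := by
    refine Nat.le_of_mul_le_mul_left (c := Z.H ^ 3) ?_ (Nat.pow_pos hH)
    calc _ = 2 * (Z.H ^ 3 * (200000 * Z.Γ)) * (P.L Z * P.a3 Z) := by ring
      _ = 2 * Z.H ^ 4 * (P.L Z * P.a3 Z) := by rw [← hZ.H_eq]; ring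
      _ ≤ _ := h3
      _ ≤ _ := by
        rw [mul_add, mul_left_comm (Z.H ^ 3) 42000, mul_assoc 42000]
        exact Nat.add_le_add_left (Nat.le_mul_of_pos_left _ (Nat.pow_pos hH)) _
  rw [D, mul_add, mul_add, add_mul, mul_assoc 4 Z.Γ (P.L Z * P.a3 Z)]
  omega

theorem ar (hZ : Z.Ok) (j k1 : ℕ) (hj : 0 < j) (h1 : 4 * Z.t' ≤ k1)
    (h2 : 36864 * Z.E * j ^ 3 ≤ k1) : ∃ n0, ∀ P : Pm, P.j = j → P.k1 = k1 → n0 ≤ P.n →
      0 < P.m → P.m ≤ 2 ^ P.n → P.Ar Z := by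
  let P0 : Pm := ⟨j, k1, 0, 0, 0⟩
  let K := k1 * P0.J Z + P0.D Z + P0.L Z * (2 * P0.h Z) + P0.k Z + (P0.ν Z + 1) * P0.d Z
  refine ⟨P0.ν Z + j * (2 * P0.k Z + 3 * j + P0.ν Z + 6) + P0.ν Z * (P0.k Z + P0.ν Z + 2) +
    K * P0.h Z ^ (Z.t0 + 1) * k1 ^ Z.t0 * k1, ?_⟩
  rintro ⟨j', k', n, m, T⟩ rfl rfl hn hm hm'
  set P : Pm := ⟨j', k', n, m, T⟩ with hP
  have hk : 0 < P.k1 := lt_of_lt_of_le (by have := hZ.t'_ge; omega) h1
  have hE := hZ.E_pos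
  have a1 : K ≤ P.b Z := le_b hZ hj hk (le_trans (Nat.le_add_left _ _) hn)
  have a2 := b_le_A hZ hk
  have a3 := n_le_kB Z hk
  change P.ν Z + P.j * (2 * P.k Z + 3 * P.j + P.ν Z + 6) + P.ν Z * (P.k Z + P.ν Z + 2) + _ ≤ P.n
    at hn
  change P.k1 * P.J Z + P.D Z + P.L Z * (2 * P.h Z) + P.k Z + (P.ν Z + 1) * P.d Z ≤ _ at a1
  refine ⟨hj, hk, hm, hm', by omega, ?_, ?_, by omega, by omega, by omega, by omega, by omega,
    D_le hZ h1⟩
  · have b1 : P.j * P.bk ≤ 2 * P.n + P.j := by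
      rw [bk, mul_add, mul_one]
      exact Nat.add_le_add_right (Nat.mul_div_le _ _) _
    have b2 : 128 * Z.E * P.j ^ 3 * (288 * P.B Z / P.k1 ^ Z.t0) ≤ P.k1 * P.B Z := by
      calc _ ≤ 128 * Z.E * P.j ^ 3 * (288 * P.B Z) :=
            Nat.mul_le_mul_left _ (Nat.div_le_self _ _)
        _ = 36864 * Z.E * P.j ^ 3 * P.B Z := by ring
        _ ≤ _ := Nat.mul_le_mul_right _ h2
    have b3 : P.j * (2 * P.k Z + 3 * P.j + P.ν Z + 6) ≤ P.n := by omega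
    have b4 := Nat.mul_le_mul_left (Z.E * P.j ^ 2) b1
    have b5 := Nat.mul_le_mul_left (Z.E * P.j ^ 2) b3
    generalize 288 * P.B Z / P.k1 ^ Z.t0 = Y at b2 ⊢
    rw [mul_comm (P.B Z)]
    refine Nat.le_of_mul_le_mul_left (c := 2) ?_ two_pos
    calc _ = 128 * Z.E * P.j ^ 3 * Y + (384 * (Z.E * P.j ^ 2 * (P.j * P.bk)) +
          128 * (Z.E * P.j ^ 2 * (P.j * (2 * P.k Z + 3 * P.j + P.ν Z + 3)))) := by ring
      _ ≤ P.k1 * P.B Z + 1000 * Z.E * P.j ^ 2 * P.n := by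
        refine Nat.add_le_add b2 ?_
        nlinarith [Nat.zero_le (Z.E * P.j ^ 2 * P.n)]
      _ ≤ _ := by omega
  · have b1 : P.k1 ^ Z.t0 * (288 * P.B Z / P.k1 ^ Z.t0) ≤ 288 * P.B Z := Nat.mul_div_le _ _
    have b2 : P.n ≤ 1000 * Z.E * P.j ^ 2 * P.n := Nat.le_mul_of_pos_left _ (by positivity)
    have b3 := Nat.mul_le_mul_left P.k1 b1
    calc P.cap Z * P.ν Z = 3 * (P.k1 * (P.k1 ^ Z.t0 * (288 * P.B Z / P.k1 ^ Z.t0))) +
          3 * (P.ν Z * (P.k Z + P.ν Z + 2)) := by rw [cap, ν]; ring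
      _ ≤ 3 * (P.k1 * (288 * P.B Z)) + 3 * (P.k1 * P.B Z) := by omega
      _ ≤ _ := by nlinarith [Nat.zero_le (P.k1 * P.B Z)]

/-- The three basic bounds. -/
theorem basic (Z : Cst) : ∃ C1 : ℕ, ∀ j, 0 < j → ∃ Λ : ℕ, ∀ k1, 0 < k1 → ∃ C : ℕ,
    ∀ P : Pm, P.j = j → P.k1 = k1 →
      P.a Z * (P.b Z + 1) ≤ Λ * (P.n / k1) + C ∧ P.ν Z * (P.A Z + 1) ≤ Λ * (P.n / k1) + C ∧
      P.k Z * P.a Z * (P.b Z + 1) ≤ P.g * (C1 * (P.n / j) + C) := by
  refine ⟨8403 * 864000 * (Z.t0 + 1) ^ 3 * Z.E, fun j hj => ?_⟩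
  let P1 : Pm := ⟨j, 0, 0, 0, 0⟩
  obtain ⟨S, hS⟩ : ∃ S, S = P1.R Z + 1 := ⟨_, rfl⟩
  have hS0 : 0 < S := hS ▸ Nat.succ_pos _
  refine ⟨S ^ Z.t0 * (S * (864000 * (Z.t0 + 1) * Z.E * j ^ 2)), fun k1 hk => ?_⟩
  let P0 : Pm := ⟨j, k1, 0, 0, 0⟩
  obtain ⟨C0, hC0⟩ : ∃ C0, C0 = 864 * (Z.t0 + 1) + k1 ^ Z.t0 *
    (3 * (Z.t0 + 1) * (P0.k Z + P0.ν Z + 2) + 2 * P0.h Z ^ (Z.t0 + 1)) := ⟨_, rfl⟩
  obtain ⟨Λ0, hΛ0⟩ : ∃ Λ0, Λ0 = 864000 * (Z.t0 + 1) * Z.E * j ^ 2 := ⟨_, rfl⟩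
  rw [← hΛ0]
  refine ⟨S ^ Z.t0 * (S * (Λ0 + C0)) + 2 * P0.ν Z + 8403 * 864000 * (Z.t0 + 1) ^ 3 * Z.E +
    P0.k Z * S * C0, ?_⟩
  rintro ⟨j', k', n, m, T⟩ rfl rfl
  set P : Pm := ⟨j', k', n, m, T⟩ with hP
  change S = P.R Z + 1 at hS
  change C0 = 864 * (Z.t0 + 1) + P.k1 ^ Z.t0 *
    (3 * (Z.t0 + 1) * (P.k Z + P.ν Z + 2) + 2 * P.h Z ^ (Z.t0 + 1)) at hC0
  change Λ0 = 864000 * (Z.t0 + 1) * Z.E * P.j ^ 2 at hΛ0
  change 0 < P.k1 at hk
  change 0 < P.j at hj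
  change _ ≤ _ * (P.n / P.k1) + (_ + 2 * P.ν Z + _ + P.k Z * S * C0) ∧
    _ ≤ _ * (P.n / P.k1) + (_ + 2 * P.ν Z + _ + P.k Z * S * C0) ∧
    _ ≤ P.g * (_ * (P.n / P.j) + (_ + 2 * P.ν Z + _ + P.k Z * S * C0))
  clear_value P
  have a1 : P.h Z ^ (Z.t0 + 1) * P.b Z ≤ (Z.t0 + 1) * P.cap Z + P.h Z ^ (Z.t0 + 1) := by
    rw [b, mul_add, mul_one]
    exact Nat.add_le_add_right (Nat.mul_div_le _ _) _
  have a2 : P.k1 ^ Z.t0 * (288 * P.B Z / P.k1 ^ Z.t0) ≤ 288 * P.B Z := Nat.mul_div_le _ _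
  have a3 : P.a Z = S * (P.k1 ^ Z.t0 * P.h Z ^ (Z.t0 + 1)) := by rw [a, J, hS]; ring
  obtain ⟨B0, hB0⟩ : ∃ B0, B0 = 1000 * Z.E * P.j ^ 2 * P.n / P.k1 := ⟨_, rfl⟩
  have a4 : P.a Z * (P.b Z + 1) ≤ S * (864 * (Z.t0 + 1) * B0 + C0) := by
    rw [a3, mul_assoc]
    refine Nat.mul_le_mul_left _ ?_
    calc _ = P.k1 ^ Z.t0 * (P.h Z ^ (Z.t0 + 1) * P.b Z + P.h Z ^ (Z.t0 + 1)) := by ring
      _ ≤ P.k1 ^ Z.t0 * ((Z.t0 + 1) * P.cap Z + P.h Z ^ (Z.t0 + 1) + P.h Z ^ (Z.t0 + 1)) :=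
          Nat.mul_le_mul_left _ (Nat.add_le_add_right a1 _)
      _ = 3 * (Z.t0 + 1) * (P.k1 ^ Z.t0 * (288 * P.B Z / P.k1 ^ Z.t0)) + P.k1 ^ Z.t0 *
          (3 * (Z.t0 + 1) * (P.k Z + P.ν Z + 2) + 2 * P.h Z ^ (Z.t0 + 1)) := by rw [cap]; ring
      _ ≤ 3 * (Z.t0 + 1) * (288 * P.B Z) + _ :=
          Nat.add_le_add_right (Nat.mul_le_mul_left _ a2) _
      _ = _ := by rw [hC0, B, ← hB0]; ring
  have a5 : P.k1 * B0 ≤ 1000 * Z.E * P.j ^ 2 * P.n := hB0 ▸ Nat.mul_div_le _ _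
  have a6 : B0 ≤ 1000 * Z.E * P.j ^ 2 * (P.n / P.k1 + 1) := by
    refine Nat.le_of_mul_le_mul_left (a5.trans ?_) hk
    rw [mul_left_comm]
    exact Nat.mul_le_mul_left _ (Nat.lt_mul_div_succ _ hk).le
  have a7 : P.a Z * (P.b Z + 1) ≤ S * Λ0 * (P.n / P.k1) + S * (Λ0 + C0) := by
    refine a4.trans ((Nat.mul_le_mul_left _ (Nat.add_le_add_right
      (Nat.mul_le_mul_left _ a6) _)).trans (le_of_eq ?_))
    rw [hΛ0]; ring
  have a8 : P.a Z * (P.b Z + 1) ≤ S ^ Z.t0 * (P.a Z * (P.b Z + 1)) :=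
    Nat.le_mul_of_pos_left _ (Nat.pow_pos hS0)
  have a9 := Nat.mul_le_mul_left (S ^ Z.t0) a7
  rw [mul_add (S ^ Z.t0), ← mul_assoc (S ^ Z.t0) (S * Λ0)] at a9
  refine ⟨by omega, ?_, ?_⟩
  · have b1 : P.u * P.A Z ≤ P.J Z ^ (Z.t0 + 1) * (P.b Z + 1) + P.u := by
      rw [A, mul_add, mul_one]
      exact Nat.add_le_add_right (Nat.mul_div_le _ _) _
    have b2 : P.ν Z * P.A Z ≤ S ^ Z.t0 * (P.a Z * (P.b Z + 1)) + P.ν Z := by
      refine Nat.le_of_mul_le_mul_left (c := P.u) ?_ (by unfold u; omega)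
      calc _ = P.ν Z * (P.u * P.A Z) := by ring
        _ ≤ P.ν Z * (P.J Z ^ (Z.t0 + 1) * (P.b Z + 1) + P.u) := Nat.mul_le_mul_left _ b1
        _ = P.k1 * (S ^ Z.t0 * (P.a Z * (P.b Z + 1))) + P.u * P.ν Z := by
            rw [a3, J, ← hS, ν]; ring
        _ ≤ _ := by
            rw [mul_add P.u]
            exact Nat.add_le_add_right (Nat.mul_le_mul_right _ (by unfold u; omega)) _
    rw [mul_add, mul_one]
    omega
  · have b1 : S ≤ 8403 * (Z.t0 + 1) * P.j ^ 9 := by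
      have : 1 ≤ P.j ^ 9 := Nat.pow_pos hj
      rw [hS, R, ← pow_mul, show 3 * 3 = 9 from rfl]
      nlinarith [Nat.zero_le (Z.t0 * P.j ^ 9)]
    have b2 : P.n ≤ P.j * (P.n / P.j + 1) := (Nat.lt_mul_div_succ _ hj).le
    have b3 : 1 ≤ P.g := by unfold g; exact Nat.succ_le_of_lt (by positivity)
    calc _ ≤ P.k Z * (S * (864 * (Z.t0 + 1) * B0 + C0)) := by
          rw [mul_assoc]; exact Nat.mul_le_mul_left _ a4
      _ = 864 * (Z.t0 + 1) ^ 2 * (S * (P.k1 * B0)) + P.k Z * S * C0 := by rw [k]; ring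
      _ ≤ 864 * (Z.t0 + 1) ^ 2 * (8403 * (Z.t0 + 1) * P.j ^ 9 *
            (1000 * Z.E * P.j ^ 2 * (P.j * (P.n / P.j + 1)))) + P.g * (P.k Z * S * C0) :=
          Nat.add_le_add (Nat.mul_le_mul_left _ (Nat.mul_le_mul b1
            (a5.trans (Nat.mul_le_mul_left _ b2)))) (Nat.le_mul_of_pos_left _ b3)
      _ = (P.j ^ 3) ^ 4 * (8403 * 864000 * (Z.t0 + 1) ^ 3 * Z.E * (P.n / P.j) +
            8403 * 864000 * (Z.t0 + 1) ^ 3 * Z.E) + P.g * (P.k Z * S * C0) := by ring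
      _ ≤ P.g * (8403 * 864000 * (Z.t0 + 1) ^ 3 * Z.E * (P.n / P.j) +
            8403 * 864000 * (Z.t0 + 1) ^ 3 * Z.E) + P.g * (P.k Z * S * C0) :=
          Nat.add_le_add_right (Nat.mul_le_mul_right _ (by unfold g; omega)) _
      _ ≤ _ := by
          rw [← mul_add]
          exact Nat.mul_le_mul_left _ (by omega)

theorem pw {p β e X : ℕ} (hp : p ≤ 2 ^ β) (h : e * β ≤ X) : p ^ e ≤ 2 ^ X := by
  refine (Nat.pow_le_pow_left hp e).trans ?_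
  rw [← pow_mul, mul_comm]
  exact Nat.pow_le_pow_right two_pos h

theorem colEv_le {p β a g h e X : ℕ} (hp : p ≤ 2 ^ β)
    (h1 : h + (e * β + a * (h / g) * β + h / g * h * β) ≤ X) : colEv p a g h (p ^ e) ≤ 2 ^ X := by
  refine le_trans ?_ (Nat.pow_le_pow_right two_pos h1)
  rw [colEv, pow_add, pow_add, pow_add, ← mul_assoc, ← mul_assoc]
  exact Nat.mul_le_mul (Nat.mul_le_mul (Nat.mul_le_mul
    (Nat.succ_le_of_lt ((Nat.div_le_self _ _).trans_lt Nat.lt_two_pow_self)) (pw hp le_rfl))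
    (pw hp le_rfl)) (pw hp le_rfl)

theorem fits (hZ : Z.Ok) : ∃ C1 : ℕ, ∀ j, 0 < j → ∃ Λ : ℕ, ∀ k1, 4 * Z.t' ≤ k1 → ∃ C : ℕ,
    ∀ P : Pm, P.j = j → P.k1 = k1 → 2 ^ (C1 * (P.n / j) + Λ * (P.n / k1) + C) ≤ P.T →
      2 ^ (4 * P.W) ≤ P.T →
      P.Fits Z ∧ P.k Z * P.p Z ^ P.a Z + P.q Z ^ P.D Z ≤ 2 ^ (Λ * (P.n / k1) + C) := by
  obtain ⟨C1, hC1⟩ := basic Z
  refine ⟨6 + 2 * C1, fun j hj => ?_⟩
  obtain ⟨Λ, hΛ⟩ := hC1 j hj
  refine ⟨(3 * Z.c + 4 * Z.t' ^ 2 + 4) * Λ, fun k1 hk1 => ?_⟩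
  have hk : 0 < k1 := lt_of_lt_of_le (by have := hZ.t'_ge; omega) hk1
  obtain ⟨C, hC⟩ := hΛ k1 hk
  refine ⟨(3 * Z.c + 4 * Z.t' ^ 2 + 4) * C + 2 * C + 10 + 3 * j + (Z.t0 + 1) * k1 + Z.t' * k1, ?_⟩
  rintro P rfl rfl hT hW
  obtain ⟨x1, x2, x3⟩ := hC P rfl rfl
  change 2 ^ (_ + _ + (_ + P.k Z + P.h Z)) ≤ _ at hT
  change _ ∧ _ ≤ 2 ^ (_ + (_ + P.k Z + P.h Z))
  obtain ⟨x0, hx0⟩ : ∃ x0, x0 = Λ * (P.n / P.k1) + C := ⟨_, rfl⟩
  obtain ⟨y0, hy0⟩ : ∃ y0, y0 = C1 * (P.n / P.j) + C := ⟨_, rfl⟩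
  rw [← hx0] at x1 x2
  rw [← hy0] at x3
  obtain ⟨X, hX⟩ : ∃ X, X = 6 * (P.n / P.j) + 2 * y0 + (3 * (Z.c * x0) + 4 * (Z.t' ^ 2 * x0) +
    4 * x0) + 10 + 3 * P.j + P.k Z + P.h Z := ⟨_, rfl⟩
  replace hT : 2 ^ X ≤ P.T := by
    refine le_trans (le_of_eq ?_) hT
    rw [hX, hx0, hy0]
    congr 1
    ring
  have key : ∀ {e : ℕ}, e ≤ X → 2 ^ e ≤ P.T := fun h => (Nat.pow_le_pow_right two_pos h).trans hT
  have hh : 0 < P.h Z := Nat.mul_pos (by have := hZ.t'_ge; omega) hk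
  have hν : 0 < P.ν Z := Nat.mul_pos hk (Nat.pow_pos hk)
  have hg : 0 < P.g := by unfold g; positivity
  have hkc : P.k Z = Z.c * P.h Z := by rw [k, h, hZ.t0_eq, mul_assoc]
  have hhk : P.h Z ≤ P.k Z := hkc ▸ Nat.le_mul_of_pos_left _ hZ.c_pos
  have a1 : P.h Z * P.h Z ≤ P.a Z :=
    Nat.mul_le_mul ((Nat.le_mul_of_pos_left _ hk).trans
      (Nat.le_self_pow (by have := t0_ge hZ; omega) _)) (Nat.le_mul_of_pos_left _ (Nat.succ_pos _))
  have a2 : P.h Z ≤ P.h Z * P.h Z := Nat.le_mul_of_pos_left _ hh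
  generalize hβ : P.b Z + 1 = β at x1 x3
  generalize hγ : P.A Z + 1 = γ at x2
  have a3 : P.h Z * P.h Z * β ≤ x0 := (Nat.mul_le_mul_right _ a1).trans x1
  have a4 : β ≤ x0 := (Nat.le_mul_of_pos_left _ (Nat.mul_pos hh hh)).trans a3
  have a5 : γ ≤ x0 := (Nat.le_mul_of_pos_left _ hν).trans x2
  have b1 : 2 ^ β ≤ P.T := key (by omega)
  have b2 : 2 ^ γ ≤ P.T := key (by omega)
  have hp : P.p Z ≤ 2 ^ β := hβ ▸ (primeAbove_spec (hβ ▸ b1)).2.2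
  have hq : P.q Z ≤ 2 ^ γ := hγ ▸ (primeAbove_spec (hγ ▸ b2)).2.2
  have a6 : P.a1 Z * P.k Z * β ≤ y0 + 3 * (Z.c * x0) := by
    have c1 : P.a1 Z ≤ P.a Z / P.g + 3 * P.h Z := by
      have := Nat.div_le_div_right (c := P.g)
        (Nat.add_le_add_left (Nat.le_mul_of_pos_left (P.h Z + 1) hg) (P.a Z))
      rw [Nat.add_mul_div_left _ _ hg] at this
      unfold Pm.a1
      rw [add_assoc (P.a Z)]
      omega
    have c2 : P.a Z / P.g * P.k Z * β ≤ y0 := by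
      refine Nat.le_of_mul_le_mul_left (le_trans ?_ x3) hg
      rw [← mul_assoc, ← mul_assoc, mul_comm (P.k Z)]
      exact Nat.mul_le_mul_right _ (Nat.mul_le_mul_right _ (Nat.mul_div_le _ _))
    calc _ ≤ (P.a Z / P.g + 3 * P.h Z) * P.k Z * β :=
          Nat.mul_le_mul_right _ (Nat.mul_le_mul_right _ c1)
      _ = P.a Z / P.g * P.k Z * β + 3 * (Z.c * (P.h Z * P.h Z * β)) := by rw [hkc]; ring
      _ ≤ _ := Nat.add_le_add c2 (Nat.mul_le_mul_left _ (Nat.mul_le_mul_left _ a3))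
  have a7 : P.a1 Z * β ≤ y0 + 3 * (Z.c * x0) :=
    (Nat.mul_le_mul_right _ (Nat.le_mul_of_pos_right _ (hh.trans_le hhk))).trans a6
  have a8 : P.a Z * (P.h Z / P.g) * β ≤ y0 := by
    refine Nat.le_of_mul_le_mul_left (le_trans ?_ x3) hg
    rw [← mul_assoc, mul_left_comm, mul_comm (P.k Z)]
    exact Nat.mul_le_mul_right _ (Nat.mul_le_mul_left _ ((Nat.mul_div_le _ _).trans hhk))
  have a9 : ∀ e δ, P.h Z / e * P.h Z * δ ≤ P.h Z * P.h Z * δ := fun e δ =>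
    Nat.mul_le_mul_right _ (Nat.mul_le_mul_right _ (Nat.div_le_self _ _))
  have a10 : P.h Z * P.h Z * γ ≤ Z.t' ^ 2 * x0 := by
    calc _ = Z.t' ^ 2 * (P.k1 * P.k1 * γ) := by rw [h]; ring
      _ ≤ _ := Nat.mul_le_mul_left _ ((Nat.mul_le_mul_right _ (sq_le_ν hZ P)).trans x2)
  have a11 : P.h Z * γ ≤ Z.t' ^ 2 * x0 := (Nat.mul_le_mul_right _ a2).trans a10
  have a12 : P.u * γ ≤ Z.t' ^ 2 * x0 := (Nat.mul_le_mul_right _ (u_le_h hZ)).trans a11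
  have a13 : P.u * P.u * γ ≤ Z.t' ^ 2 * x0 :=
    (Nat.mul_le_mul_right _ (Nat.mul_le_mul (u_le_h hZ) (u_le_h hZ))).trans a10
  have a14 : P.D Z * γ ≤ 2 * x0 := by
    have c1 : P.D Z ≤ 2 * P.ν Z := by
      have := hZ.Γ_pos
      refine Nat.le_of_mul_le_mul_left (c := 4 * Z.Γ) ((D_le hZ hk1).trans ?_) (by omega)
      rw [← mul_assoc]
      exact Nat.mul_le_mul_right _ (by omega)
    refine (Nat.mul_le_mul_right _ c1).trans ?_
    rw [mul_assoc]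
    omega
  have a15 : P.a3 Z * P.L Z * γ ≤ 2 * x0 :=
    (Nat.mul_le_mul_right _ (by rw [D, mul_comm]; omega)).trans a14
  have a16 : P.a3 Z * γ ≤ 2 * x0 :=
    (Nat.mul_le_mul_right _ (Nat.le_mul_of_pos_right _ (Nat.succ_pos _))).trans a15
  have hN : P.k Z * P.p Z ^ P.a Z + P.q Z ^ P.D Z ≤ 2 ^ (P.k Z + 3 * x0 + 1) := by
    have c1 : P.k Z * P.p Z ^ P.a Z ≤ 2 ^ (P.k Z + 3 * x0) := by
      rw [pow_add]
      exact Nat.mul_le_mul Nat.lt_two_pow_self.le (pw hp (by omega))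
    have c2 : P.q Z ^ P.D Z ≤ 2 ^ (P.k Z + 3 * x0) := pw hq (by omega)
    rw [pow_succ]
    omega
  have hu := u_le_h (P := P) hZ
  refine ⟨⟨hβ ▸ b1, hγ ▸ b2, ?_, hW, (pw hp (by omega)).trans hT, (pw hp (by omega)).trans hT,
    (colEv_le hp (by have := a9 P.g β; omega)).trans hT,
    (pw hq (by rw [mul_assoc]; omega)).trans hT, (pw hq (by rw [mul_assoc]; omega)).trans hT,
    (colEv_le hq ?_).trans hT, (pw hq (by rw [mul_assoc]; omega)).trans hT,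
    (pw hq (by omega)).trans hT, (colEv_le hq ?_).trans hT, ?_, hN.trans (key (by omega))⟩,
    hN.trans (Nat.pow_le_pow_right two_pos ?_)⟩
  · have c1 : P.bk ≤ 2 * (P.n / P.j) + 3 := by
      have := Nat.lt_mul_div_succ P.n hj
      refine Nat.succ_le_succ (Nat.div_le_of_le_mul ?_)
      nlinarith
    refine le_trans ?_ (key (e := P.k Z + 3 * P.j + 3 * P.bk) (by omega))
    rw [pow_add, pow_add, mul_comm 3, mul_comm 3, pow_mul, pow_mul]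
    exact Nat.mul_le_mul_right _ (Nat.mul_le_mul_left _
      (Nat.pow_le_pow_left Nat.lt_two_pow_self.le _))
  · have c1 : 4 * P.u * (P.u / 4) * γ ≤ P.u * P.u * γ := by
      refine Nat.mul_le_mul_right _ ?_
      rw [mul_comm 4, mul_assoc]
      exact Nat.mul_le_mul_left _ (Nat.mul_div_le _ _)
    have c2 : P.u / 4 * P.u * γ ≤ P.u * P.u * γ :=
      Nat.mul_le_mul_right _ (Nat.mul_le_mul_right _ (Nat.div_le_self _ _))
    rw [mul_assoc 2]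
    omega
  · have c1 : 2 * P.h Z * (P.h Z / (2 * Z.H ^ 4)) * γ ≤ 2 * (P.h Z * P.h Z * γ) := by
      rw [← mul_assoc, ← mul_assoc]
      exact Nat.mul_le_mul_right _ (Nat.mul_le_mul_left _ (Nat.div_le_self _ _))
    have c2 := a9 (2 * Z.H ^ 4) γ
    omega
  · refine le_trans ?_ (key (e := y0 + 3 * (Z.c * x0) + 2 * (Z.t' ^ 2 * x0) + 2 * x0) (by omega))
    rw [Q1, Q2, Q3, ← pow_mul, ← pow_mul, pow_add, pow_add]
    exact Nat.mul_le_mul (Nat.mul_le_mul (pw hp a6) (pw hq (by rw [mul_assoc]; omega))) (pw hq a15)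
  · have c1 : (3 * Z.c + 4 * Z.t' ^ 2 + 4) * Λ * (P.n / P.k1) + (3 * Z.c + 4 * Z.t' ^ 2 + 4) * C =
        (3 * Z.c + 4 * Z.t' ^ 2) * x0 + 4 * x0 := by rw [hx0]; ring
    omega

end Pm

end Pool.Agent.MP_a2da35_lc

end

-- part MP_a2da35_lc.Det.Main
section

/-!
The algorithm answers once the budget is `2 ^ (n / D + A)`, and the final contradiction.
-/

namespace Pool.Agent.MP_a2da35_lc

open Finset Filter Topology Pool.Agent.Lib.Cx

theorem exists_cst {c ε : ℝ} (hc : 1 ≤ c) (hε : 0 < ε) :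
    ∃ Z : Cst, Z.Ok ∧ c ≤ Z.c ∧ 1 ≤ Z.E * ε := by
  obtain ⟨E, hE⟩ := exists_nat_ge (1 / ε)
  rw [div_le_iff₀ hε] at hE
  have hE0 : 0 < E := by
    rcases Nat.eq_zero_or_pos E with rfl | h
    · norm_num at hE
    · exact h
  obtain ⟨c0, hc0⟩ := exists_nat_ge c
  have hc1 : 0 < c0 := by exact_mod_cast (show (0 : ℝ) < c0 by linarith)
  obtain ⟨Γ, hΓ⟩ : ∃ Γ, Γ = 2097152000 * c0 * E := ⟨_, rfl⟩
  obtain ⟨H, hH⟩ : ∃ H, H = 200000 * Γ := ⟨_, rfl⟩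
  obtain ⟨t, ht⟩ : ∃ t, t = 1179649 * H ^ 4 * (Γ + 1) := ⟨_, rfl⟩
  have h1 : 0 < c0 * t := by rw [ht, hH, hΓ]; positivity
  exact ⟨⟨c0, E, Γ, H, t, c0 * t - 1⟩, ⟨hc1, hE0, hΓ, hH, ht, Nat.sub_add_cancel h1⟩, hc0, hE⟩

theorem length_le_cube {n : ℕ} {φ : List Clause} (hφ : OnVars n φ) (hn : φ.Nodup) :
    φ.length ≤ 8 * n ^ 3 := by
  classical
  rw [← List.toFinset_card_of_nodup hn]
  refine (card_le_card (t := (range n ×ˢ univ) ×ˢ (range n ×ˢ univ) ×ˢ (range n ×ˢ univ))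
    fun c hc => ?_).trans (le_of_eq ?_)
  · simpa using hφ c (List.mem_toFinset.1 hc)
  · simp only [card_product, card_range, card_univ, Fintype.card_bool]
    ring

theorem size_le_pow {n : ℕ} {φ : List Clause} (hφ : OnVars n φ) (hn : φ.Nodup) :
    size (n, φ) ≤ 300 * (n + 1) ^ 4 := by
  have h1 : size φ ≤ φ.length * (2 * (10 * n + 12) + 1) := by
    refine size_list_le _ _ fun c hc => ?_
    obtain ⟨a1, a2, a3⟩ := hφ c hc
    have b1 := size_nat_le_self c.1.1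
    have b2 := size_nat_le_self c.2.1.1
    have b3 := size_nat_le_self c.2.2.1
    simp only [size_prod, size_bool]
    omega
  have h2 := Nat.mul_le_mul_right (2 * (10 * n + 12) + 1) (length_le_cube hφ hn)
  have h3 := size_nat_le_self n
  have h4 : 300 * (n + 1) ^ 4 = 8 * n ^ 3 * (2 * (10 * n + 12) + 1) + (2 * n + 1) +
      (140 * n ^ 4 + 1000 * n ^ 3 + 1800 * n ^ 2 + 1198 * n + 299) := by ring
  rw [size_prod]
  dsimp only
  omega

theorem poly_lt (A e : ℕ) {D : ℕ} (hD : 0 < D) :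
    ∀ᶠ n : ℕ in atTop, A * (n + 1) ^ e < 2 ^ (n / D) := by
  have h1 : ∀ᶠ z : ℕ in atTop, (A * (2 * D) ^ e + 1) * z ^ e < 2 ^ z := by
    filter_upwards [(tendsto_pow_const_div_const_pow_of_one_lt e one_lt_two).eventually_lt_const
      (show (0 : ℝ) < 1 / ((A * (2 * D) ^ e + 1 : ℕ) : ℝ) by positivity)] with z hz
    rw [div_lt_div_iff₀ (by positivity) (by positivity), one_mul, mul_comm] at hz
    exact_mod_cast hz
  filter_upwards [(Nat.tendsto_div_const_atTop hD.ne').eventually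
    (h1.and (eventually_ge_atTop 1))] with n hn
  refine lt_of_le_of_lt ?_ hn.1
  have h2 : n + 1 ≤ 2 * D * (n / D) := by
    have := Nat.lt_mul_div_succ n hD
    nlinarith [hn.2]
  calc _ ≤ A * (2 * D * (n / D)) ^ e := Nat.mul_le_mul_left _ (Nat.pow_le_pow_left h2 _)
    _ = A * (2 * D) ^ e * (n / D) ^ e := by rw [mul_pow, mul_assoc]
    _ ≤ _ := Nat.mul_le_mul_right _ (Nat.le_succ _)

theorem mul_div_le_div {a D j : ℕ} (n : ℕ) (hD : 0 < D) (h : a * D ≤ j) : a * (n / j) ≤ n / D := by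
  refine (Nat.le_div_iff_mul_le hD).2 (le_trans ?_ (Nat.mul_div_le n j))
  rw [mul_right_comm]
  exact Nat.mul_le_mul_right _ h

theorem tendsto_of_bound {h : ℕ → ℕ} {C : ℕ}
    (H : ∀ D, 0 < D → ∃ A : ℕ, ∀ᶠ n in atTop, h n ≤ C * (n / D) + A) :
    Tendsto (fun n => (h n : ℝ) / n) atTop (𝓝 0) := by
  refine tendsto_order.2 ⟨fun a ha => Eventually.of_forall fun n => ha.trans_le (by positivity),
    fun a ha => ?_⟩
  obtain ⟨D, hD⟩ := exists_nat_ge (2 / a)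
  obtain ⟨A, hA⟩ := H (C * D + 1) (Nat.succ_pos _)
  obtain ⟨n0, hn0⟩ := exists_nat_gt (2 * A / a)
  filter_upwards [hA, eventually_ge_atTop n0, eventually_gt_atTop 0] with n h1 h2 h3
  have h4 : (0 : ℝ) < n := by exact_mod_cast h3
  have h5 : (n0 : ℝ) ≤ n := by exact_mod_cast h2
  rw [div_le_iff₀ ha] at hD
  rw [div_lt_iff₀ ha] at hn0
  have h6 : D * (C * (n / (C * D + 1))) ≤ n := by
    refine le_trans ?_ (Nat.mul_div_le n (C * D + 1))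
    rw [← mul_assoc, mul_comm D]
    exact Nat.mul_le_mul_right _ (Nat.le_succ _)
  generalize C * (n / (C * D + 1)) = y at h1 h6
  have h7 : (h n : ℝ) ≤ y + A := by exact_mod_cast h1
  have h8 : (D : ℝ) * y ≤ n := by exact_mod_cast h6
  rw [div_lt_iff₀ h4]
  nlinarith [mul_le_mul_of_nonneg_right hD (Nat.cast_nonneg (α := ℝ) y),
    mul_le_mul_of_nonneg_right h8 ha.le, mul_le_mul_of_nonneg_right h5 ha.le]

theorem stage_isSome {Z : Cst} (hZ : Z.Ok) {M : Turing.TM2ComputableAux Bool Bool} {c : ℝ}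
    {f g : ℕ → ℝ} (hg : Tendsto (fun k => g k / k) atTop (𝓝 0))
    (hM : DetApproximates M c fun N k => f k * (N : ℝ) ^ g k) {sim : Sim} (hs : IsSim M sim)
    {D : ℕ} (hD : 0 < D) : ∃ A : ℕ, ∀ n φ, OnVars n φ → φ.Nodup → ∀ T, 2 ^ (n / D + A) ≤ T →
      (stage Z sim ((n, φ), List.replicate T ())).isSome = true := by
  classical
  obtain ⟨C1, hC1⟩ := Pm.fits hZ
  obtain ⟨j, hj⟩ : ∃ j, j = C1 * (2 * D) + 1 := ⟨_, rfl⟩
  have hj0 : 0 < j := hj ▸ Nat.succ_pos _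
  obtain ⟨Λ, hΛ⟩ := hC1 j hj0
  have hQ : 0 < (Z.t0 + 1) * ((Λ + 1) * (2 * D)) := by positivity
  have hQ' : (0 : ℝ) < ((Z.t0 + 1) * ((Λ + 1) * (2 * D)) : ℕ) := by exact_mod_cast hQ
  obtain ⟨s, hs1, hs2⟩ := (((hg.comp (tendsto_id.const_mul_atTop' hQ)).eventually_le_const
    (one_div_pos.2 hQ')).and (eventually_ge_atTop (4 * Z.t' + 36864 * Z.E * j ^ 3 + 1))).exists
  obtain ⟨k1, hk1⟩ : ∃ k1, k1 = (Λ + 1) * (2 * D) * s := ⟨_, rfl⟩
  have hsk : s ≤ k1 := hk1 ▸ Nat.le_mul_of_pos_left _ (by positivity)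
  have hgs : g ((Z.t0 + 1) * k1) ≤ s := by
    have : (0 : ℝ) < s := by exact_mod_cast (show 0 < s by omega)
    simp only [Function.comp, id] at hs1
    rw [Nat.cast_mul _ s, div_le_iff₀ (mul_pos hQ' this), ← mul_assoc (1 / _ : ℝ),
      one_div_mul_cancel hQ'.ne', one_mul] at hs1
    rwa [hk1, ← mul_assoc]
  obtain ⟨C, hC⟩ := hΛ k1 (by omega)
  obtain ⟨n0, hn0⟩ := Pm.ar hZ j k1 hj0 (by omega) (by omega)
  obtain ⟨n1, hn1⟩ := eventually_atTop.1 (poly_lt 9 3 (show 0 < 4 * D by omega))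
  obtain ⟨F, hF⟩ := exists_nat_ge (f ((Z.t0 + 1) * k1))
  refine ⟨n0 + n1 + C + s * C + F + j + k1, fun n φ hφ hnd T hT => ?_⟩
  have key : ∀ {e}, e ≤ n / D + (n0 + n1 + C + s * C + F + j + k1) → 2 ^ e ≤ T := fun h =>
    (Nat.pow_le_pow_right two_pos h).trans hT
  unfold stage
  dsimp only
  rw [List.length_replicate]
  by_cases h1 : φ = [] ∨ n < size T
  · rw [if_pos h1]; rfl
  rw [if_neg h1]
  rw [not_or, not_lt, size_nat_le_iff] at h1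
  have hn : n0 + n1 ≤ n := by
    by_contra h
    exact absurd (key (e := n) (le_add_left (by omega))) (not_le.2 h1.2)
  have b1 : φ.length + n < 2 ^ (n / (4 * D)) := by
    refine lt_of_le_of_lt ?_ (hn1 n (by omega))
    have := length_le_cube hφ hnd
    have h2 : n ^ 3 ≤ (n + 1) ^ 3 := Nat.pow_le_pow_left (Nat.le_succ _) _
    have h3 : n + 1 ≤ (n + 1) ^ 3 := Nat.le_self_pow (by norm_num) _
    omega
  have b2 : 4 * (n / (4 * D)) ≤ n / D := mul_div_le_div n hD le_rfl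
  have b3 : n ≤ T := le_trans (by omega) (key (e := n / (4 * D)) (by omega))
  have b4 : j < T := Nat.lt_two_pow_self.trans_le (key (by omega))
  have b5 : k1 < T := Nat.lt_two_pow_self.trans_le (key (by omega))
  have b6 : 2 * (n / (2 * D)) ≤ n / D := mul_div_le_div n hD le_rfl
  have b7 : C1 * (n / j) ≤ n / (2 * D) := mul_div_le_div n (by omega) (by omega)
  have b8 : Λ * s * (n / k1) ≤ n / (2 * D) := by
    refine mul_div_le_div n (by omega) ?_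
    rw [hk1, mul_right_comm]
    exact Nat.mul_le_mul_right _ (Nat.mul_le_mul_right _ (Nat.le_succ _))
  have b9 : Λ * (n / k1) ≤ Λ * s * (n / k1) :=
    Nat.mul_le_mul_right _ (Nat.le_mul_of_pos_right _ (by omega))
  rw [if_pos b3, List.isSome_head?]
  obtain ⟨P, hP⟩ : ∃ P : Pm, P = ⟨j, k1, n, φ.length, T⟩ := ⟨_, rfl⟩
  have e : pm (((List.replicate T ()).take j, (List.replicate T ()).take k1,
      (List.replicate T ()).take n), φ, List.replicate T ()) = P := by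
    simp [pm, hP, b3, b4.le, b5.le]
  have a1 : P.Ar Z := hP ▸ hn0 _ rfl rfl (show n0 ≤ n by omega)
    (List.length_pos_iff.2 h1.1) (show φ.length ≤ 2 ^ n from le_trans (by omega)
      (Nat.pow_le_pow_right two_pos (Nat.div_le_self n (4 * D))))
  obtain ⟨a2, a3⟩ : P.Fits Z ∧
      P.k Z * P.p Z ^ P.a Z + P.q Z ^ P.D Z ≤ 2 ^ (Λ * (n / k1) + C) := by
    rw [hP]
    refine hC _ rfl rfl (key (by dsimp only; omega)) (key ?_)
    have := size_nat_le_iff.2 b1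
    unfold Pm.W
    dsimp only
    omega
  obtain ⟨K, -⟩ := Pm.good hZ P (φ := φ) (by rw [hP]) (by rw [hP]; exact hφ) a1 a2
  have a4 : ((P.dd Z φ).verdict sim (List.replicate T ())).isSome = true := by
    refine verdict_isSome hM hs K ?_
    change f (P.k Z) * ((P.k Z * P.p Z ^ P.a Z + P.q Z ^ P.D Z : ℕ) : ℝ) ^ g (P.k Z) ≤ _
    have c1 : 1 ≤ P.k Z * P.p Z ^ P.a Z + P.q Z ^ P.D Z :=
      le_trans (Nat.pow_pos (primeAbove_spec a2.2.1).1.pos) (Nat.le_add_left _ _)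
    generalize P.k Z * P.p Z ^ P.a Z + P.q Z ^ P.D Z = N at a3 c1
    rw [show P.k Z = (Z.t0 + 1) * k1 by rw [hP]; rfl, List.length_replicate]
    have c2 : F * N ^ s ≤ T := by
      refine le_trans ?_ (key (e := F + s * (Λ * (n / k1) + C)) ?_)
      · rw [pow_add, mul_comm s, pow_mul]
        exact Nat.mul_le_mul Nat.lt_two_pow_self.le (Nat.pow_le_pow_left a3 _)
      · rw [mul_add, ← mul_assoc, mul_comm s Λ]
        omega
    refine le_trans (mul_le_mul hF ((Real.rpow_le_rpow_of_exponent_le (by exact_mod_cast c1)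
      hgs).trans (Real.rpow_natCast _ _).le) (by positivity) (by positivity)) ?_
    exact_mod_cast c2
  obtain ⟨b, hb⟩ := Option.isSome_iff_exists.1 a4
  refine List.ne_nil_of_mem (a := b) (List.mem_filterMap.2 ⟨(j, k1),
    List.pair_mem_product.2 ⟨List.mem_range.2 b4, List.mem_range.2 b5⟩, ?_⟩)
  unfold cand
  dsimp only
  rw [e, if_pos ⟨a1, a2⟩, hb]

theorem det_main (H : DetGapETH) (c : ℝ) (hc : 1 ≤ c) (f g : ℕ → ℝ)
    (hg : Tendsto (fun k => g k / k) atTop (𝓝 0)) :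
    ¬ ∃ M, DetApproximates M c fun N k => f k * (N : ℝ) ^ g k := by
  classical
  rintro ⟨M, hM⟩
  obtain ⟨ε, hε, hno⟩ := H
  obtain ⟨Z, hZ, hc', hE⟩ := exists_cst hc hε
  obtain ⟨sim, hsim, hs⟩ := exists_sim' M
  obtain ⟨M', C, hM'⟩ := exists_loop (stage Z sim) (stage_pt hsim)
  let Ok : ℕ → ℕ → Prop := fun n e => ∀ φ : List Clause, OnVars n φ → φ.Nodup →
    ∃ b : Bool, Runs M' (enc (n, φ)) [b] (2 ^ (e : ℝ)) ∧
      (Satisfiable φ → b = true) ∧ (Far ε φ → b = false)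
  have key : ∀ D, 0 < D → ∃ A : ℕ, ∀ n e, C * (300 * (n + 1) ^ 4 + 2 ^ (n / D + A)) ^ C ≤ 2 ^ e →
      Ok n e := by
    intro D hD
    obtain ⟨A, hA⟩ := stage_isSome hZ hg hM hs hD
    refine ⟨A, fun n e he φ hφ hnd => ?_⟩
    have h1 := hA n φ hφ hnd _ le_rfl
    have h2 : ∃ i, (stage Z sim ((n, φ), List.replicate (2 ^ i) ())).isSome = true := ⟨_, h1⟩
    obtain ⟨b, hb⟩ := Option.isSome_iff_exists.1 (Nat.find_spec h2)
    refine ⟨b, (hM' _ _ b hb fun j hj => ?_).mono ?_,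
      stage_ok hZ hM hs (by linarith) hc' hε hE hφ (by simp) hb⟩
    · simpa using Nat.find_min h2 hj
    · have h3 : C * (size (n, φ) + 2 ^ Nat.find h2) ^ C ≤ 2 ^ e :=
        le_trans (Nat.mul_le_mul_left _ (Nat.pow_le_pow_left (Nat.add_le_add (size_le_pow hφ hnd)
          (Nat.pow_le_pow_right two_pos (Nat.find_min' h2 h1))) _)) he
      rw [Real.rpow_natCast]
      exact_mod_cast h3
  have ex : ∀ n, ∃ e, Ok n e := by
    obtain ⟨A, hA⟩ := key 1 one_pos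
    exact fun n => ⟨_, hA n _ Nat.lt_two_pow_self.le⟩
  refine hno ⟨M', fun n => (Nat.find (ex n) : ℕ), tendsto_of_bound (C := C) fun D hD => ?_,
    fun n => Nat.find_spec (ex n)⟩
  obtain ⟨A, hA⟩ := key D hD
  refine ⟨C * (A + 1) + C, ?_⟩
  filter_upwards [poly_lt 300 4 hD] with n hn
  refine Nat.find_min' _ (hA n _ ?_)
  have h1 : 2 ^ (n / D) ≤ 2 ^ (n / D + A) := Nat.pow_le_pow_right two_pos (Nat.le_add_right _ _)
  rw [← add_assoc, ← mul_add, pow_add _ _ C, mul_comm C (n / D + (A + 1)), pow_mul, mul_comm C]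
  refine Nat.mul_le_mul (Nat.pow_le_pow_left ?_ _) Nat.lt_two_pow_self.le
  rw [← add_assoc, pow_succ 2]
  omega

end Pool.Agent.MP_a2da35_lc

end
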